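import Pool.Agent.Y442.NM.Low
import Pool.Agent.H436R2.NM.TG1
import Pool.Agent.H436R2.NM.TG2
import Pool.Agent.H436R2.NM.TG3
import Pool.Agent.H436R2.NM.TG4
import Pool.Agent.H436R2.NM.TG5
import Pool.Agent.H436R2.NM.TU1
import Pool.Agent.H436R2.NM.TU2
import Pool.Agent.H436R2.NM.TD1
import Pool.Agent.H436R2.NM.TD2
import Pool.Agent.H436R2.NM.TE1
import Pool.Agent.H436R2.NM.TE2
import Pool.Agent.H436R2.NM.TE3
import Pool.Agent.H436R2.NM.TE4
import Pool.Agent.H436R2.NM.TF0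
import Pool.Agent.H436R2.NM.TF1
import Pool.Agent.H436R2.NM.TF2
import Pool.Agent.H436R2.NM.TF3
import Pool.Agent.H436R2.NM.TF4
import Pool.Agent.H436R2.NM.TA1
import Pool.Agent.H436R2.NM.TT1
import Pool.Agent.H436R2.NM.TT2
import Pool.Agent.H436R2.NM.TT3
import Pool.Agent.H436R2.NM.TT4
import Pool.Agent.H436R2.NM.TT5
import Pool.Agent.H436R2.NM.TBLA
import Pool.Agent.H436R2.NM.TBLO
import Pool.Agent.H436R2.NM.TX1
import Pool.Agent.H436R2.NM.TP1
import Pool.Agent.H436R2.NM.TP2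
import Pool.Agent.H436R2.NM.TP3
import Pool.Agent.H436R2.NM.TP4
import Pool.Agent.H436R2.NM.TB1
import Pool.Agent.H436R2.NM.TB2
import Pool.Agent.H436R2.NM.TB3
import Pool.Agent.H436R2.NM.TV1
import Pool.Agent.H436R2.NM.TV2
import Pool.Agent.H436R2.NM.TC1
import Pool.Agent.H436R2.NM.TC2
import Pool.Agent.H436R2.NM.TC3
import Pool.Agent.H436R2.NM.TC4
import Pool.Agent.H436R2.NM.TC5
import Pool.Agent.H436R2.NM.TFin1

/-!
# The derived length of groups of maximal class with the commutator form of the nM condition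
-/

set_option autoImplicit false

open H436NM
open scoped commutatorElement

universe u

namespace Pool.Agent.Y442.NM

/-- nM-groups satisfy the commutator condition -/
theorem nmc_of_isNM (G : Type u) [Group G] [Fintype G] (p n : ℕ) (hMC : MC p n G) (h : IsNM G) :
    NMC n G :=
  tC5 tC1 tC2 tC3 tC4 tG2 tG3 tG4 G p n hMC h

theorem unif_all (G : Type u) [Group G] (p n : ℕ) (hMC : MC p n G) : ∃ s, Unif G n s := by
  revert G p n
  apply tB3 tU1 tU2
  intro G _ p n i hMC h3 hin hj g hg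
  by_cases hi : i < 2 * p
  · exact tB1 tBLA tBLO tD2 ⟨tE1, tE2, tE3, tE4, tF0, tF1⟩ tU1 tU2 tG3 G p n i hMC h3 hi hin hj g hg
  · exact tB2 tP4 ⟨tP1, tP2, tP3, tG2, tG5⟩ tU1 tU2 tG3 G p n i hMC h3 (by omega) hin hj g hg

/-- `γ_{p+1}(G)'` is contained in `γ_{n+6-3p}(G)` -/
theorem high (G : Type u) [Group G] (p n : ℕ) (hMC : MC p n G) (hN : NMC n G) (h6 : 6 * p ≤ n) :
    ⁅gam G (p + 1), gam G (p + 1)⁆ ≤ gam G (n + 6 - 3 * p) := by
  obtain ⟨s, hs⟩ := unif_all G p n hMC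
  obtain ⟨lc, hlc⟩ := tD1 G p n n s hMC le_rfl hs
  exact tV1 tP4 ⟨tP1, tP2, tP3, tG2, tG3, tG5⟩ tF2 ⟨tE1, tE2, tE3, tE4, tF0, tF1⟩ tF3 G p n s lc
    hMC hN h6 hs hlc

/-- if `G^(t)` is contained in `γ_p(G)` then `G^(t + 3)` is trivial -/
theorem three_steps (G : Type u) [Group G] (p n t : ℕ) (hMC : MC p n G) (hN : NMC n G)
    (hd : derivedSeries G t ≤ gam G (min n p)) : derivedSeries G (t + 3) = ⊥ := by
  have hp2 := hMC.pr.two_le
  have hbot : gam G n = ⊥ := (tG3 G p n hMC).1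
  have hz : ∀ k j, n ≤ j → derivedSeries G k ≤ gam G j → derivedSeries G k = ⊥ := by
    intro k j hj hk
    rw [eq_bot_iff, ← hbot]
    exact hk.trans (V2_anti G hj)
  rcases le_or_gt n p with hnp | hnp
  · rw [Nat.min_eq_left hnp] at hd
    have h0 := hz t n le_rfl hd
    rw [eq_bot_iff, ← h0]
    exact derivedSeries_antitone G (by omega)
  · rw [Nat.min_eq_right hnp.le] at hd
    rcases lt_or_ge n (6 * p) with h6 | h6
    · have d1 := V2_step tG2 G t p (2 * p) (by omega) le_rfl hd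
      have d2 := V2_step tG2 G (t + 1) (2 * p) (4 * p) (by omega) (by omega) d1
      have d3 := V2_step tG2 G (t + 2) (4 * p) (8 * p) (by omega) (by omega) d2
      exact hz (t + 3) (8 * p) (by omega) d3
    · have d1 := V2_step tG2 G t p (p + 1) (by omega) (by omega) hd
      have d2 : derivedSeries G (t + 2) ≤ gam G (n + 6 - 3 * p) := by
        rw [show t + 2 = (t + 1) + 1 from rfl, derivedSeries_succ]
        exact (Subgroup.commutator_mono d1 d1).trans (high G p n hMC hN h6)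
      have d3 := V2_step tG2 G (t + 2) (n + 6 - 3 * p) n (by omega) (by omega) d2
      exact hz (t + 3) n le_rfl d3

/-- `γ_p(G) = γ_{min n p}(G)` -/
theorem gam_min (G : Type u) [Group G] (p n : ℕ) (hMC : MC p n G) :
    gam G (min n p) = gam G p := by
  rcases le_or_gt n p with hnp | hnp
  · rw [Nat.min_eq_left hnp]
    have hbot : gam G n = ⊥ := (tG3 G p n hMC).1
    apply le_antisymm
    · rw [hbot]; exact bot_le
    · exact V2_anti G hnp
  · rw [Nat.min_eq_right hnp.le]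

theorem dl_bound (G : Type u) [Group G] (p n : ℕ) (hMC : MC p n G) (hN : NMC n G) :
    2 ^ dl G ≤ 2 ^ 10 * ((lowSet G n p).ncard + 9) ^ 2 := by
  have h2 := hMC.two_le
  have hm2 : 2 ≤ min n p := le_min h2 hMC.pr.two_le
  have hmn : min n p ≤ n := min_le_left _ _
  have hmp : min n p ≤ p := min_le_right _ _
  obtain ⟨s, hs⟩ := unif_exists tU1 G p n (min n p) hMC hmn hmp
  obtain ⟨lc, hlc⟩ := tD1 G p n (min n p) s hMC hmn hs
  obtain ⟨t, ht, htb⟩ := lowX3 tG2 tG3 G p n (min n p) hMC hm2 hmn (by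
    intro i v hi hv hiv hiv'
    apply lowX2 tG3 G p n (min n p) i v hMC hmn hi hv
    exact tX1 tF2 ⟨tE1, tE2, tE3, tE4, tF0, tF1⟩ tF3 tF4 tG4 tA1 tT5 ⟨tT1, tT2, tT3, tT4⟩ G p n
      (min n p) i v s lc hMC hN hmn hmp hlc hi hv hiv hiv')
  have hlow : lowSet G n (min n p) = lowSet G n p := by
    unfold lowSet
    rw [gam_min G p n hMC]
  rw [hlow] at htb
  have hbot := three_steps G p n t hMC hN ht
  have hdl : dl G ≤ t + 3 := Nat.sInf_le hbot
  obtain ⟨S, hS⟩ : ∃ S, S = (lowSet G n p).ncard := ⟨_, rfl⟩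
  rw [← hS] at htb ⊢
  have h3 : dl G ≤ Nat.log 2 (S + 2) + Nat.log 2 (29 + 2 * S) + 9 := by omega
  calc 2 ^ dl G ≤ 2 ^ (Nat.log 2 (S + 2) + Nat.log 2 (29 + 2 * S) + 9) :=
        Nat.pow_le_pow_right (by norm_num) h3
    _ = 2 ^ Nat.log 2 (S + 2) * 2 ^ Nat.log 2 (29 + 2 * S) * 2 ^ 9 := by rw [pow_add, pow_add]
    _ ≤ (S + 2) * (29 + 2 * S) * 2 ^ 9 :=
        Nat.mul_le_mul_right _ (Nat.mul_le_mul (Nat.pow_log_le_self 2 (by omega))
          (Nat.pow_log_le_self 2 (by omega)))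
    _ ≤ 2 ^ 10 * (S + 9) ^ 2 := by nlinarith

theorem lowSet_lt (G : Type u) [Group G] (p n : ℕ) (hMC : MC p n G) :
    (lowSet G n p).ncard + 1 ≤ (derSet G n).ncard := by
  have hbot : gam G n = ⊥ := (tG3 G p n hMC).1
  have hmem : (⊥ : Subgroup G) ∈ derSet G n := by
    refine ⟨n, by have := hMC.two_le; omega, le_rfl, ?_⟩
    rw [hbot, Subgroup.commutator_bot_left]
  have hnot : (⊥ : Subgroup G) ∉ lowSet G n p := by
    rintro ⟨i, -, -, -, h⟩
    exact h bot_le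
  have hss : lowSet G n p ⊂ derSet G n :=
    ⟨lowSet_subset G n p, fun h => hnot (h hmem)⟩
  exact Set.ncard_lt_ncard hss (finite_derSet G n)

theorem dl_real (G : Type u) [Group G] (p n : ℕ) (hMC : MC p n G) (hN : NMC n G) :
    (dl G : ℝ) ≤ 2 / Real.log 2 * Real.log ((derSet G n).ncard : ℝ) + 17 := by
  have hl2 : 0 < Real.log 2 := Real.log_pos (by norm_num)
  have h1 := dl_bound G p n hMC hN
  have h2 := lowSet_lt G p n hMC
  obtain ⟨S, hS⟩ : ∃ S, S = (lowSet G n p).ncard := ⟨_, rfl⟩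
  obtain ⟨T, hT⟩ : ∃ T, T = (derSet G n).ncard := ⟨_, rfl⟩
  rw [← hS] at h1 h2
  rw [← hT] at h2 ⊢
  have h3 : (2 : ℝ) ^ dl G ≤ 2 ^ 10 * ((S : ℝ) + 9) ^ 2 := by exact_mod_cast h1
  have hT1 : (S : ℝ) + 1 ≤ T := by exact_mod_cast h2
  have hS0 : (0 : ℝ) ≤ S := Nat.cast_nonneg _
  have hTpos : (1 : ℝ) ≤ T := by linarith
  have h4 : ((S : ℝ) + 9) ^ 2 ≤ (9 * T) ^ 2 := by
    apply pow_le_pow_left₀ (by linarith)
    linarith
  have h5 : (2 : ℝ) ^ dl G ≤ 2 ^ 17 * (T : ℝ) ^ 2 := by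
    calc (2 : ℝ) ^ dl G ≤ 2 ^ 10 * ((S : ℝ) + 9) ^ 2 := h3
      _ ≤ 2 ^ 10 * (9 * T) ^ 2 := by linarith
      _ ≤ 2 ^ 17 * (T : ℝ) ^ 2 := by nlinarith
  have h6 := Real.log_le_log (by positivity) h5
  rw [Real.log_pow, Real.log_mul (by positivity) (by positivity), Real.log_pow, Real.log_pow] at h6
  push_cast at h6
  have h7 : (dl G : ℝ) ≤ (17 * Real.log 2 + 2 * Real.log T) / Real.log 2 := by
    rw [le_div_iff₀ hl2]
    linarith
  have h8 : (17 * Real.log 2 + 2 * Real.log T) / Real.log 2 = 2 / Real.log 2 * Real.log T + 17 := by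
    field_simp
    ring
  linarith

end Pool.Agent.Y442.NM
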