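import Pool.Agent.H436R2.NM.Defs
import Pool.Agent.H436R2.NM.TX2
import Pool.Agent.H436R2.NM.TX3

/-!
# Counting only the derived subgroups that are not contained in `γ_p(G)`
-/

set_option autoImplicit false

open H436NM
open scoped commutatorElement

universe u

namespace Pool.Agent.Y442.NM

/-- The subgroups `γ_i(G)'`, `2 ≤ i ≤ n`, which are not contained in `γ_m(G)`. -/
def lowSet (G : Type u) [Group G] (n m : ℕ) : Set (Subgroup G) :=
  {H | ∃ i, 2 ≤ i ∧ i ≤ n ∧ H = ⁅gam G i, gam G i⁆ ∧ ¬ H ≤ gam G m}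

theorem lowSet_subset (G : Type u) [Group G] (n m : ℕ) : lowSet G n m ⊆ derSet G n := by
  rintro H ⟨i, h2, hn, h, -⟩
  exact ⟨i, by omega, hn, h⟩

theorem finite_derSet (G : Type u) [Group G] (n : ℕ) : (derSet G n).Finite := by
  have : derSet G n ⊆ (fun i => ⁅gam G i, gam G i⁆) '' (Set.Icc 1 n) := by
    rintro H ⟨i, h1, h2, rfl⟩
    exact ⟨i, ⟨h1, h2⟩, rfl⟩
  exact ((Set.finite_Icc 1 n).image _).subset this

/-- counting the windows -/
theorem lowX2 (hG3 : G3.{u}) (G : Type u) [Group G] (p n m i v : ℕ) (hMC : MC p n G) (hmn : m ≤ n)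
    (_hi : 2 ≤ i) (hvm : v < m)
    (hk : ∀ k, v < k → k ≤ m → k ≤ 29 * v ∨
      ∃ d b, d < k ∧ k ≤ d + 2 * v ∧ 2 ≤ b ∧ 2 ≤ d ∧ ⁅gam G b, gam G b⁆ = gam G d) :
    m ≤ (29 + 2 * (lowSet G n m).ncard) * (v + 1) := by
  obtain ⟨hbot, hne, -, hinj, -⟩ := hG3 G p n hMC
  by_contra hcon
  push Not at hcon
  have hfin : (lowSet G n m).Finite := (finite_derSet G n).subset (lowSet_subset G n m)
  obtain ⟨S, hS⟩ : ∃ S, S = (lowSet G n m).ncard := ⟨_, rfl⟩
  rw [← hS] at hcon
  rcases Nat.eq_zero_or_pos v with hv | hv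
  · -- `v = 0`
    subst hv
    have h1 : 1 ≤ m := by omega
    rcases hk 1 (by omega) h1 with h | ⟨d, b, h2, h3, _⟩
    · omega
    · omega
  · -- the levels `d_t`
    have hd : ∀ t : Fin (S + 1), ∃ d b, d < m - 2 * v * t ∧ m - 2 * v * t ≤ d + 2 * v ∧
        2 ≤ b ∧ 2 ≤ d ∧ ⁅gam G b, gam G b⁆ = gam G d := by
      intro t
      have ht : (t : ℕ) ≤ S := Nat.le_of_lt_succ t.2
      have h1 : 2 * v * t ≤ 2 * v * S := Nat.mul_le_mul_left _ ht
      have h2 : (29 + 2 * S) * (v + 1) = 29 * v + 2 * v * S + 29 + 2 * S := by ring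
      rcases hk (m - 2 * v * t) (by omega) (by omega) with h | h
      · omega
      · exact h
    choose d b hd1 hd2 hb hd3 hdb using hd
    have hdm : ∀ t, d t < m := fun t => lt_of_lt_of_le (hd1 t) (Nat.sub_le _ _)
    -- they belong to `lowSet`
    have hmem : ∀ t, gam G (d t) ∈ lowSet G n m := by
      intro t
      have h4 := hdm t
      have h3 := hd3 t
      refine ⟨b t, hb t, ?_, (hdb t).symm, ?_⟩
      · by_contra hbn
        push Not at hbn
        have h1 : gam G (b t) ≤ gam G n := X2_anti hbn.le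
        rw [hbot, le_bot_iff] at h1
        have h2 := hdb t
        rw [h1, Subgroup.commutator_bot_left] at h2
        exact hne (d t) (by omega) (by omega) (by rw [← h2]; exact bot_le)
      · intro hle
        exact hne (d t) (by omega) (by omega) (hle.trans (X2_anti (by omega)))
    -- they are different
    have hinj' : Function.Injective (fun t => gam G (d t)) := by
      intro t t' htt
      have h1 := hinj (d t) (d t') (by have := hd3 t; omega) (by have := hd3 t'; omega)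
        (by have := hdm t; omega) (by have := hdm t'; omega) htt
      have key : ∀ a c : Fin (S + 1), d a = d c → ¬ (a : ℕ) < c := by
        intro a c hac hlt
        have e1 := hd1 c
        have e2 := hd2 a
        have hc : (c : ℕ) ≤ S := Nat.le_of_lt_succ c.2
        have e3 : 2 * v * ((a : ℕ) + 1) ≤ 2 * v * c := Nat.mul_le_mul_left _ hlt
        have e4 : 2 * v * ((a : ℕ) + 1) = 2 * v * a + 2 * v := by ring
        omega
      apply Fin.ext
      rcases lt_trichotomy (t : ℕ) (t' : ℕ) with h | h | h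
      · exact absurd h (key t t' h1)
      · exact h
      · exact absurd h (key t' t h1.symm)
    have h1 : (Set.range (fun t => gam G (d t))).ncard = S + 1 := by
      rw [← Set.image_univ, Set.ncard_image_of_injective _ hinj', Set.ncard_univ, Nat.card_fin]
    have h2 : Set.range (fun t => gam G (d t)) ⊆ lowSet G n m := by
      rintro _ ⟨t, rfl⟩
      exact hmem t
    have h3 := Set.ncard_le_ncard h2 hfin
    omega

open H436NM.X3aux in
/-- the derived series up to level `m` -/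
theorem lowX3 (hG2 : G2.{u}) (hG3 : G3.{u}) (G : Type u) [Group G] (p n m : ℕ) (hMC : MC p n G)
    (_hm2 : 2 ≤ m) (_hmn : m ≤ n)
    (hyp : ∀ i v, 2 ≤ i → v < m → ⁅gam G i, gam G i⁆ ≤ gam G v →
      ¬ ⁅gam G (i + 1), gam G (i + 1)⁆ ≤ gam G (v + 1) →
      m ≤ (29 + 2 * (lowSet G n m).ncard) * (v + 1)) :
    ∃ t, derivedSeries G t ≤ gam G m ∧
      t ≤ Nat.log 2 ((lowSet G n m).ncard + 2) + Nat.log 2 (29 + 2 * (lowSet G n m).ncard) + 6 := by
  classical
  obtain ⟨hbot, -⟩ := hG3 G p n hMC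
  have hn2 := hMC.two_le
  have hex : ∃ i, 2 ≤ i ∧ (⁅gam G i, gam G i⁆ ≤ gam G m ∨ ∃ v, v < m ∧ ⁅gam G i, gam G i⁆ ≤ gam G v ∧
      ¬ ⁅gam G (i + 1), gam G (i + 1)⁆ ≤ gam G (v + 1)) := by
    refine ⟨n, hn2, Or.inl ?_⟩
    rw [hbot]
    simp
  obtain ⟨j, hj, hmin⟩ : ∃ j, (2 ≤ j ∧ (⁅gam G j, gam G j⁆ ≤ gam G m ∨ ∃ v, v < m ∧
      ⁅gam G j, gam G j⁆ ≤ gam G v ∧ ¬ ⁅gam G (j + 1), gam G (j + 1)⁆ ≤ gam G (v + 1))) ∧
      ∀ i, i < j → ¬ (2 ≤ i ∧ (⁅gam G i, gam G i⁆ ≤ gam G m ∨ ∃ v, v < m ∧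
        ⁅gam G i, gam G i⁆ ≤ gam G v ∧ ¬ ⁅gam G (i + 1), gam G (i + 1)⁆ ≤ gam G (v + 1))) :=
    ⟨Nat.find hex, Nat.find_spec hex, fun i hi => Nat.find_min hex hi⟩
  obtain ⟨hj2, hj⟩ := hj
  have hjn : j ≤ n := by
    by_contra hlt
    push Not at hlt
    apply hmin n hlt
    refine ⟨hn2, Or.inl ?_⟩
    rw [hbot]
    simp
  -- strict decrease
  have hstr : ∀ i, 2 ≤ i → i < j → ⁅gam G (i + 1), gam G (i + 1)⁆ ≠ ⁅gam G i, gam G i⁆ := by
    intro i hi2 hij heq
    have h := hmin i hij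
    have hA : ∀ v, v ≤ m → ⁅gam G i, gam G i⁆ ≤ gam G v := by
      intro v
      induction v with
      | zero =>
        intro _
        have : gam G 0 = ⊤ := by simp [gam]
        rw [this]
        exact le_top
      | succ v ih =>
        intro hv
        by_contra hno
        rw [← heq] at hno
        exact h ⟨hi2, Or.inr ⟨v, by omega, ih (by omega), hno⟩⟩
    exact h ⟨hi2, Or.inl (hA m le_rfl)⟩
  have hmono : ∀ i i', i ≤ i' → ⁅gam G i', gam G i'⁆ ≤ ⁅gam G i, gam G i⁆ := fun i i' h =>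
    Subgroup.commutator_mono (gam_anti G h) (gam_anti G h)
  have hlt : ∀ i i', 2 ≤ i → i < i' → i' ≤ j → ⁅gam G i', gam G i'⁆ ≠ ⁅gam G i, gam G i⁆ := by
    intro i i' hi hii hi' heq
    apply hstr i hi (by omega)
    apply le_antisymm (hmono i (i + 1) (by omega))
    rw [← heq]
    exact hmono (i + 1) i' hii
  have hfin : (lowSet G n m).Finite := (finite_derSet G n).subset (lowSet_subset G n m)
  have hcard : j ≤ (lowSet G n m).ncard + 2 := by
    have hinj : Set.InjOn (fun i => ⁅gam G i, gam G i⁆) (Set.Icc 2 (j - 1)) := by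
      intro i hi i' hi' heq
      simp only at heq
      have h1 := hi.1
      have h2 := hi.2
      have h3 := hi'.1
      have h4 := hi'.2
      by_contra hne
      rcases lt_or_gt_of_ne hne with h | h
      · exact hlt i i' h1 h (by omega) heq.symm
      · exact hlt i' i h3 h (by omega) heq
    have h1 : ((fun i => ⁅gam G i, gam G i⁆) '' (Set.Icc 2 (j - 1))).ncard =
        (Set.Icc 2 (j - 1)).ncard :=
      hinj.ncard_image
    have h2 : (Set.Icc 2 (j - 1)).ncard = j - 1 + 1 - 2 := by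
      rw [← Finset.coe_Icc, Set.ncard_coe_finset, Nat.card_Icc]
    have h3 : (fun i => ⁅gam G i, gam G i⁆) '' (Set.Icc 2 (j - 1)) ⊆ lowSet G n m := by
      rintro H ⟨i, hi, rfl⟩
      have h4 := hi.1
      have h5 := hi.2
      exact ⟨i, h4, by omega, rfl, fun hle => hmin i (by omega) ⟨h4, Or.inl hle⟩⟩
    have h4 := Set.ncard_le_ncard h3 hfin
    omega
  obtain ⟨S, hS⟩ : ∃ S, S = (lowSet G n m).ncard := ⟨_, rfl⟩
  rw [← hS] at hcard hyp ⊢
  have hl1 : Nat.log 2 j ≤ Nat.log 2 (S + 2) := Nat.log_mono_right (by omega)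
  have htop : derivedSeries G 0 ≤ gam G 1 := by
    have : gam G 1 = ⊤ := by simp [gam]
    rw [this]
    exact le_top
  have ht1 : derivedSeries G (Nat.log 2 j + 1) ≤ gam G j := by
    have h := ser hG2 0 1 le_rfl htop (Nat.log 2 j + 1)
    rw [zero_add, mul_one] at h
    exact le_trans h (gam_anti G (Nat.lt_pow_succ_log_self (by norm_num) j).le)
  have ht2 : derivedSeries G (Nat.log 2 j + 1 + 1) ≤ ⁅gam G j, gam G j⁆ :=
    Subgroup.commutator_mono ht1 ht1
  rcases hj with hj | ⟨v, hvm, hv1, hv2⟩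
  · exact ⟨Nat.log 2 j + 1 + 1, le_trans ht2 hj, by omega⟩
  · have hm' := hyp j v hj2 hvm hv1 hv2
    have hv : 2 * j ≤ v := by
      by_contra hno
      push Not at hno
      apply hv2
      refine le_trans (hmono j (j + 1) (by omega)) ?_
      refine le_trans (hG2 G j j (by omega) (by omega)) ?_
      exact gam_anti G (by omega)
    have ht3 := ser hG2 (Nat.log 2 j + 1 + 1) v (by omega) (le_trans ht2 hv1)
      (Nat.log 2 (29 + 2 * S) + 2)
    refine ⟨_, le_trans ht3 (gam_anti G ?_), by omega⟩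
    have h29 : 29 + 2 * S < 2 ^ (Nat.log 2 (29 + 2 * S) + 1) :=
      Nat.lt_pow_succ_log_self (by norm_num) _
    calc m ≤ (29 + 2 * S) * (v + 1) := hm'
      _ ≤ (29 + 2 * S) * (2 * v) := Nat.mul_le_mul_left _ (by omega)
      _ = (29 + 2 * S) * 2 * v := by ring
      _ ≤ 2 ^ (Nat.log 2 (29 + 2 * S) + 1) * 2 * v :=
        Nat.mul_le_mul_right _ (Nat.mul_le_mul_right _ h29.le)
      _ = 2 ^ (Nat.log 2 (29 + 2 * S) + 2) * v := by ring

end Pool.Agent.Y442.NM
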